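import Pool.Agent.TH639.B3.TwBd
import Pool.Agent.TH639.B3.Tors

/-!
Doubling on a twist by a uniformiser, and independence modulo two.
-/

set_option autoImplicit false
set_option linter.all false
set_option maxHeartbeats 1000000

open WeierstrassCurve WeierstrassCurve.Affine FF

namespace Pool.Agent.TH180.R2

open Pool.Agent.W343.BSD
open Pool.Agent.W313.Gr (curve)
open Pool.Agent.TH639.B3 (curve_eq)

/-- two elements of a group without two-torsion, independent modulo two -/
theorem indep_two {G : Type} [AddCommGroup G] (P : Fin 2 → G) (hno : ∀ R : G, R + R = 0 → R = 0)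
    (h0 : ∀ R : G, R + R ≠ P 0) (h1 : ∀ R : G, R + R ≠ P 1) (h01 : ∀ R : G, R + R ≠ P 0 + P 1) :
    LinearIndependent ℤ P := by
  rw [Fintype.linearIndependent_iff]
  have step : ∀ a b : ℤ, a • P 0 + b • P 1 = 0 → ∃ a' b' : ℤ, a = 2 * a' ∧ b = 2 * b' ∧
      a' • P 0 + b' • P 1 = 0 := by
    intro a b h
    obtain ⟨m, hm⟩ := Int.even_or_odd' a
    obtain ⟨n, hn⟩ := Int.even_or_odd' b
    rcases hm with hm | hm <;> rcases hn with hn | hn
    · refine ⟨m, n, hm, hn, hno _ ?_⟩
      rw [hm, hn] at h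
      rw [← h, mul_smul, mul_smul, two_smul, two_smul]
      abel
    · exfalso
      apply h1 (-(m • P 0 + n • P 1))
      rw [hm, hn, add_smul, mul_smul, mul_smul, one_smul, two_smul, two_smul] at h
      have h' : P 1 = -((m • P 0 + m • P 0) + (n • P 1 + n • P 1)) := by
        rw [eq_neg_iff_add_eq_zero, ← h]; abel
      refine Eq.trans ?_ h'.symm
      abel
    · exfalso
      apply h0 (-(m • P 0 + n • P 1))
      rw [hm, hn, add_smul, mul_smul, mul_smul, one_smul, two_smul, two_smul] at h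
      have h' : P 0 = -((m • P 0 + m • P 0) + (n • P 1 + n • P 1)) := by
        rw [eq_neg_iff_add_eq_zero, ← h]; abel
      refine Eq.trans ?_ h'.symm
      abel
    · exfalso
      apply h01 (-(m • P 0 + n • P 1))
      rw [hm, hn, add_smul, add_smul, mul_smul, mul_smul, one_smul, one_smul, two_smul,
        two_smul] at h
      have h' : P 0 + P 1 = -((m • P 0 + m • P 0) + (n • P 1 + n • P 1)) := by
        rw [eq_neg_iff_add_eq_zero, ← h]; abel
      refine Eq.trans ?_ h'.symm
      abel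
  have key : ∀ N : ℕ, ∀ a b : ℤ, a • P 0 + b • P 1 = 0 → (2 : ℤ) ^ N ∣ a ∧ (2 : ℤ) ^ N ∣ b := by
    intro N
    induction N with
    | zero => intro a b _; simp
    | succ N ih =>
      intro a b h
      obtain ⟨a', b', ha, hb, h'⟩ := step a b h
      obtain ⟨h1, h2⟩ := ih a' b' h'
      rw [ha, hb, pow_succ, mul_comm]
      exact ⟨mul_dvd_mul_left 2 h1, mul_dvd_mul_left 2 h2⟩
  have zero : ∀ a : ℤ, (∀ N : ℕ, (2 : ℤ) ^ N ∣ a) → a = 0 := by
    intro a h
    by_contra hne
    have h2 := Int.natAbs_dvd_natAbs.2 (h a.natAbs)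
    have h3 := Nat.le_of_dvd (Int.natAbs_pos.2 hne) h2
    rw [Int.natAbs_pow] at h3
    have h4 : a.natAbs < 2 ^ a.natAbs := Nat.lt_pow_self (by norm_num)
    have h5 : (2 : ℤ).natAbs = 2 := rfl
    rw [h5] at h3
    omega
  intro g hg i
  rw [Fin.sum_univ_two] at hg
  apply zero
  intro N
  obtain ⟨h2, h3⟩ := key N _ _ hg
  fin_cases i
  · exact h2
  · exact h3

section dbl

variable {k F : Type} [Field k] [Field F] [Algebra k F] (v : Place k F)

/-- zero modulo the place -/
def Small (x : F) : Prop := x = 0 ∨ 0 < v.ord x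

variable {v}

theorem small_mul {x y : F} (hx : Small v x) (hy : v.Reg y) : Small v (x * y) := by
  rcases hx with rfl | hx
  · left; rw [zero_mul]
  rcases hy with rfl | hy
  · left; rw [mul_zero]
  by_cases h0 : x * y = 0
  · exact Or.inl h0
  · right
    rw [v.ord_mul (left_ne_zero_of_mul h0) (right_ne_zero_of_mul h0)]
    omega

theorem unit_of_red {x : F} (hx : v.Reg x) (h : v.red x ≠ 0) : x ≠ 0 ∧ v.ord x = 0 := by
  rw [Ne, v.red_eq_zero_iff hx] at h
  push Not at h
  refine ⟨h.1, ?_⟩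
  have := (v.reg_iff h.1).1 hx
  omega

theorem reg_two : v.Reg (2 : F) := by
  have := v.reg_add v.reg_one v.reg_one
  rwa [one_add_one_eq_two] at this

theorem reg_pow' {x : F} (hx : v.Reg x) (n : ℕ) : v.Reg (x ^ n) := by
  induction n with
  | zero => rw [pow_zero]; exact v.reg_one
  | succ n ih => rw [pow_succ]; exact v.reg_mul ih hx

theorem reg_nat' (n : ℕ) : v.Reg ((n : ℕ) : F) := by
  induction n with
  | zero => rw [Nat.cast_zero]; exact v.reg_zero
  | succ n ih => rw [Nat.cast_succ]; exact v.reg_add ih v.reg_one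

theorem red_nat' (n : ℕ) : v.red ((n : ℕ) : F) = n := by
  induction n with
  | zero => rw [Nat.cast_zero, v.red_zero, Nat.cast_zero]
  | succ n ih => rw [Nat.cast_succ, v.red_add (reg_nat' n) v.reg_one, ih, v.red_one, Nat.cast_succ]

/-- the coordinate of a double is not small -/
theorem dbl_coord {T a b X Y X' : F} (hT : v.ord T = 1) (ha : v.Reg a) (hb : v.Reg b)
    (h2 : v.red (2 : F) ≠ 0)
    (hΔ : v.red (4 * a ^ 3 + 27 * b ^ 2) ≠ 0) (hY : Y ≠ 0)
    (hE : Y ^ 2 = X ^ 3 + T ^ 2 * a * X + T ^ 3 * b)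
    (hX' : X' * (4 * Y ^ 2) = (3 * X ^ 2 + T ^ 2 * a) ^ 2 - 8 * X * Y ^ 2) : ¬ Small v X' := by
  have hT0 : T ≠ 0 := by
    rintro rfl
    rw [v.ord_zero] at hT
    norm_num at hT
  obtain ⟨t0, t1⟩ := unit_of_red reg_two h2
  have h40 : (4 : F) ≠ 0 := by
    have : (4 : F) = 2 * 2 := by norm_num
    rw [this]; exact mul_ne_zero t0 t0
  have h4 : v.ord (4 : F) = 0 := by
    have : (4 : F) = 2 * 2 := by norm_num
    rw [this, v.ord_mul t0 t0, t1]; rfl
  set x := X / T with hx
  have hXx : X = T * x := by rw [hx]; field_simp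
  set c := x ^ 3 + a * x + b with hc
  set n := (3 * x ^ 2 + a) ^ 2 - 8 * x * c with hn
  have hYc : Y ^ 2 = T ^ 3 * c := by rw [hE, hXx, hc]; ring
  have hc0 : c ≠ 0 := by
    intro h
    rw [h, mul_zero] at hYc
    exact hY (pow_eq_zero_iff two_ne_zero |>.1 hYc)
  have hXn : X' * (4 * c) = T * n := by
    have h3 : X' * (4 * (T ^ 3 * c)) = (3 * (T * x) ^ 2 + T ^ 2 * a) ^ 2 - 8 * (T * x) * (T ^ 3 * c) := by
      rw [← hYc, ← hXx]; exact hX'
    apply mul_left_cancel₀ (pow_ne_zero 3 hT0)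
    rw [hn]
    linear_combination h3
  have hodd : 2 * v.ord Y = 3 + v.ord c := by
    have h5 := congrArg v.ord hYc
    rw [v.ord_pow, v.ord_mul (pow_ne_zero 3 hT0) hc0, v.ord_pow, hT] at h5
    push_cast at h5
    linarith
  have fin : n ≠ 0 → v.ord n + 1 ≤ v.ord c → ¬ Small v X' := by
    intro hn0 hle hs
    have hX'0 : X' ≠ 0 := by
      rintro rfl
      rw [zero_mul] at hXn
      exact mul_ne_zero hT0 hn0 hXn.symm
    have h5 := congrArg v.ord hXn
    rw [v.ord_mul hX'0 (mul_ne_zero h40 hc0), v.ord_mul h40 hc0, h4, v.ord_mul hT0 hn0, hT] at h5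
    rcases hs with hs | hs
    · exact hX'0 hs
    · omega
  by_cases hxr : v.Reg x
  · -- `x` is regular
    have hcr : v.Reg c := v.reg_add (v.reg_add (reg_pow' hxr 3) (v.reg_mul ha hxr)) hb
    have hc1 : 0 < v.ord c := by
      have := (v.reg_iff hc0).1 hcr
      omega
    have hcred : v.red c = 0 := (v.red_eq_zero_iff hcr).2 (Or.inr hc1)
    have h3r : v.Reg (3 : F) := by exact_mod_cast reg_nat' 3
    have h8r : v.Reg (8 : F) := by exact_mod_cast reg_nat' 8
    have n3 : v.red (3 : F) = 3 := by exact_mod_cast red_nat' (v := v) 3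
    have n8 : v.red (8 : F) = 8 := by exact_mod_cast red_nat' (v := v) 8
    have n4 : v.red (4 : F) = 4 := by exact_mod_cast red_nat' (v := v) 4
    have n27 : v.red (27 : F) = 27 := by exact_mod_cast red_nat' (v := v) 27
    have h4r : v.Reg (4 : F) := by exact_mod_cast reg_nat' 4
    have h27r : v.Reg (27 : F) := by exact_mod_cast reg_nat' 27
    have hd : v.Reg (3 * x ^ 2 + a) := v.reg_add (v.reg_mul h3r (reg_pow' hxr 2)) ha
    have hnr : v.Reg n := by
      rw [hn, sub_eq_add_neg]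
      exact v.reg_add (reg_pow' hd 2) (v.reg_neg (v.reg_mul (v.reg_mul h8r hxr) hcr))
    have hnred : v.red n = (3 * v.red x ^ 2 + v.red a) ^ 2 := by
      rw [hn, v.red_sub (reg_pow' hd 2) (v.reg_mul (v.reg_mul h8r hxr) hcr), v.red_pow hd,
        v.red_mul (v.reg_mul h8r hxr) hcr, hcred, mul_zero, sub_zero,
        v.red_add (v.reg_mul h3r (reg_pow' hxr 2)) ha, v.red_mul h3r (reg_pow' hxr 2),
        v.red_pow hxr, n3]
    have hcred' : v.red x ^ 3 + v.red a * v.red x + v.red b = 0 := by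
      rw [← hcred, hc, v.red_add (v.reg_add (reg_pow' hxr 3) (v.reg_mul ha hxr)) hb,
        v.red_add (reg_pow' hxr 3) (v.reg_mul ha hxr), v.red_pow hxr, v.red_mul ha hxr]
    have hne : v.red n ≠ 0 := by
      rw [hnred]
      apply pow_ne_zero
      intro h0
      apply hΔ
      rw [v.red_add (v.reg_mul h4r (reg_pow' ha 3)) (v.reg_mul h27r (reg_pow' hb 2)),
        v.red_mul h4r (reg_pow' ha 3), v.red_mul h27r (reg_pow' hb 2), v.red_pow ha, v.red_pow hb,
        n4, n27]
      have ea : v.red a = -3 * v.red x ^ 2 := by linear_combination h0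
      have eb : v.red b = 2 * v.red x ^ 3 := by
        rw [ea] at hcred'
        linear_combination hcred'
      rw [ea, eb]
      ring
    obtain ⟨e1, e2⟩ := unit_of_red hnr hne
    exact fin e1 (by omega)
  · -- `x` has a pole
    have hx0 : x ≠ 0 := fun h => hxr (Or.inl h)
    have hxn : v.ord x < 0 := by
      by_contra h
      exact hxr (Or.inr (by omega))
    set y := x⁻¹ with hy
    have hyx : x * y = 1 := mul_inv_cancel₀ hx0
    have hys : 0 < v.ord y := by rw [hy, v.ord_inv]; omega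
    have hyr : v.Reg y := Or.inr hys.le
    have hyred : v.red y = 0 := (v.red_eq_zero_iff hyr).2 (Or.inr hys)
    have h8r : v.Reg (8 : F) := by exact_mod_cast reg_nat' 8
    -- the cubic
    have r1 : v.Reg (a * y + b * y ^ 2) := v.reg_add (v.reg_mul ha hyr) (v.reg_mul hb (reg_pow' hyr 2))
    have hcy : c = x ^ 3 * (1 + y * (a * y + b * y ^ 2)) := by
      rw [hc]
      linear_combination (-(a * x) * (1 + x * y) - b * (1 + x * y + x ^ 2 * y ^ 2)) * hyx
    have c1 : v.Reg (1 + y * (a * y + b * y ^ 2)) := v.reg_add v.reg_one (v.reg_mul hyr r1)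
    have c2 : v.red (1 + y * (a * y + b * y ^ 2)) ≠ 0 := by
      rw [v.red_add v.reg_one (v.reg_mul hyr r1), v.red_mul hyr r1, hyred, zero_mul, add_zero,
        v.red_one]
      exact one_ne_zero
    obtain ⟨c3, c4⟩ := unit_of_red c1 c2
    have c5 : v.ord c = 3 * v.ord x := by
      rw [hcy, v.ord_mul (pow_ne_zero 3 hx0) c3, c4, v.ord_pow]
      push_cast
      ring
    -- the numerator
    have r2 : v.Reg (-2 * a * y - 8 * b * y ^ 2 + a ^ 2 * y ^ 3) := by
      have g1 : v.Reg (-(2 * a * y)) := v.reg_neg (v.reg_mul (v.reg_mul reg_two ha) hyr)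
      have g2 : v.Reg (-(8 * b * y ^ 2)) := v.reg_neg (v.reg_mul (v.reg_mul h8r hb) (reg_pow' hyr 2))
      have g3 : v.Reg (a ^ 2 * y ^ 3) := v.reg_mul (reg_pow' ha 2) (reg_pow' hyr 3)
      have e : -2 * a * y - 8 * b * y ^ 2 + a ^ 2 * y ^ 3 =
        (-(2 * a * y) + -(8 * b * y ^ 2)) + a ^ 2 * y ^ 3 := by ring
      rw [e]
      exact v.reg_add (v.reg_add g1 g2) g3
    have hny : n = x ^ 4 * (1 + y * (-2 * a * y - 8 * b * y ^ 2 + a ^ 2 * y ^ 3)) := by
      rw [hn, hc]
      linear_combination ((2 * a * x ^ 2) * (1 + x * y) + 8 * b * x * (1 + x * y + x ^ 2 * y ^ 2) -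
        a ^ 2 * (1 + x * y + x ^ 2 * y ^ 2 + x ^ 3 * y ^ 3)) * hyx
    have d1 : v.Reg (1 + y * (-2 * a * y - 8 * b * y ^ 2 + a ^ 2 * y ^ 3)) :=
      v.reg_add v.reg_one (v.reg_mul hyr r2)
    have d2 : v.red (1 + y * (-2 * a * y - 8 * b * y ^ 2 + a ^ 2 * y ^ 3)) ≠ 0 := by
      rw [v.red_add v.reg_one (v.reg_mul hyr r2), v.red_mul hyr r2, hyred, zero_mul, add_zero,
        v.red_one]
      exact one_ne_zero
    obtain ⟨d3, d4⟩ := unit_of_red d1 d2
    have d5 : v.ord n = 4 * v.ord x := by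
      rw [hny, v.ord_mul (pow_ne_zero 4 hx0) d3, d4, v.ord_pow]
      push_cast
      ring
    have hn0 : n ≠ 0 := by
      rw [hny]
      exact mul_ne_zero (pow_ne_zero 4 hx0) d3
    exact fin hn0 (by omega)

open Classical in
/-- doubles of points do not have small coordinates -/
theorem dbl_point {T a b : F} (hT : v.ord T = 1) (ha : v.Reg a) (hb : v.Reg b)
    (h2 : v.red (2 : F) ≠ 0) (hΔ : v.red (4 * a ^ 3 + 27 * b ^ 2) ≠ 0)
    (R : (curve (T ^ 2 * a) (T ^ 3 * b)).toAffine.Point) {X' Y' : F}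
    (h : (curve (T ^ 2 * a) (T ^ 3 * b)).toAffine.Nonsingular X' Y') (hs : Small v X') :
    R + R ≠ Point.some _ _ h := by
  obtain ⟨t0, t1⟩ := unit_of_red reg_two h2
  intro hR
  rcases R with _ | ⟨X, Y, hXY⟩
  · have e : (Point.zero : (curve (T ^ 2 * a) (T ^ 3 * b)).toAffine.Point) = 0 := rfl
    rw [e, add_zero] at hR
    exact absurd hR (by simp)
  · by_cases hY : Y = (curve (T ^ 2 * a) (T ^ 3 * b)).toAffine.negY X Y
    · rw [Point.add_self_of_Y_eq hY] at hR
      exact absurd hR (by simp)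
    · rw [Point.add_self_of_Y_ne hY] at hR
      have hneg : (curve (T ^ 2 * a) (T ^ 3 * b)).toAffine.negY X Y = -Y := by
        simp [negY, curve]
      have hY0 : Y ≠ 0 := by
        rintro rfl
        apply hY
        rw [hneg, neg_zero]
      have hsl : (curve (T ^ 2 * a) (T ^ 3 * b)).toAffine.slope X X Y Y =
          (3 * X ^ 2 + T ^ 2 * a) / (2 * Y) := by
        rw [slope_of_Y_ne rfl hY, hneg]
        simp only [curve]
        congr 1 <;> ring
      have h3 : (curve (T ^ 2 * a) (T ^ 3 * b)).toAffine.addX X X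
          ((curve (T ^ 2 * a) (T ^ 3 * b)).toAffine.slope X X Y Y) = X' := by
        injection hR
      have h4 : X' = ((3 * X ^ 2 + T ^ 2 * a) / (2 * Y)) ^ 2 - 2 * X := by
        rw [← h3, hsl]
        simp only [addX, curve]
        ring
      have hE := (curve_eq _ _ _ _).1 hXY.1
      apply dbl_coord hT ha hb h2 hΔ hY0 hE (X' := X') ?_ hs
      rw [h4]
      field_simp
      ring

end dbl

end Pool.Agent.TH180.R2
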