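import Pool.Agent.TH180.R2.Dbl
import Pool.Agent.W309.RK.Fin

/-!
Two independent points on the twist by `T` of `y ^ 2 = x ^ 3 + (α x + 4 (z ^ 2 - T)) ^ 2` over `k(T)`.
-/

set_option autoImplicit false
set_option linter.all false
set_option maxHeartbeats 1000000

open WeierstrassCurve WeierstrassCurve.Affine FF Polynomial

namespace Pool.Agent.TH180.R2

open Pool.Agent.W343.BSD
open Pool.Agent.W313.Gr (curve)
open Pool.Agent.TH639.B3 (curve_eq)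

section alg

variable {F : Type} [Field F]

/-- the coefficient `a` of the short form of `y ^ 2 = x ^ 3 + (α x + β) ^ 2` -/
def sA (α β : F) : F := 2 * α * β - α ^ 4 / 3

/-- the coefficient `b` of the short form -/
def sB (α β : F) : F := β ^ 2 - 2 * α ^ 3 * β / 3 + 2 * α ^ 6 / 27

theorem ne27 (h3 : (3 : F) ≠ 0) : (27 : F) ≠ 0 := by
  have : (27 : F) = 3 ^ 3 := by norm_num
  rw [this]; exact pow_ne_zero 3 h3

theorem cubic (h3 : (3 : F) ≠ 0) (α β x : F) :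
    (x + α ^ 2 / 3) ^ 3 + sA α β * (x + α ^ 2 / 3) + sB α β = x ^ 3 + (α * x + β) ^ 2 := by
  have h27 := ne27 h3
  unfold sA sB
  field_simp
  ring

theorem isT3_s (h3 : (3 : F) ≠ 0) (α β : F) : TH639.B3.IsT3 (sA α β) (sB α β) α β := by
  have h27 := ne27 h3
  constructor
  · unfold sA; field_simp; ring
  · unfold sB; field_simp; ring

theorem disc_s (h3 : (3 : F) ≠ 0) (α β : F) : 4 * sA α β ^ 3 + 27 * sB α β ^ 2 =
    -(β ^ 3 * (4 * α ^ 3 - 27 * β)) := TH639.B3.isT3_disc h3 (isT3_s h3 α β)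

theorem tw_disc (T a b : F) : 4 * (T ^ 2 * a) ^ 3 + 27 * (T ^ 3 * b) ^ 2 =
    T ^ 6 * (4 * a ^ 3 + 27 * b ^ 2) := by ring

theorem nonsing (h2 : (2 : F) ≠ 0) {A B X Y : F} (hΔ : 4 * A ^ 3 + 27 * B ^ 2 ≠ 0)
    (h : Y ^ 2 = X ^ 3 + A * X + B) : (curve A B).toAffine.Nonsingular X Y := by
  have hD : (curve A B).Δ = -16 * (4 * A ^ 3 + 27 * B ^ 2) := by
    simp only [WeierstrassCurve.Δ, WeierstrassCurve.b₂, WeierstrassCurve.b₄, WeierstrassCurve.b₆,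
      WeierstrassCurve.b₈, curve]
    ring
  have h16 : (-16 : F) ≠ 0 := by
    have : (-16 : F) = -(2 ^ 4) := by norm_num
    rw [this]; exact neg_ne_zero.2 (pow_ne_zero 4 h2)
  have hD0 : (curve A B).Δ ≠ 0 := by
    rw [hD]; exact mul_ne_zero h16 hΔ
  exact (equation_iff_nonsingular_of_Δ_ne_zero hD0).1 ((curve_eq _ _ _ _).2 h)

/-- the first coordinate of the point with parameter `ν` -/
def ptX (α z T ν : F) : F := T * (-(ν ^ 2 * (z ^ 2 - T)) + α ^ 2 / 3)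

/-- the second coordinate -/
def ptY (z T ν : F) : F := T ^ 2 * (ν ^ 3 * (z ^ 2 - T))

theorem on_curve (h3 : (3 : F) ≠ 0) {α z T ν : F} (hν : z * ν ^ 3 + α * ν ^ 2 - 4 = 0) :
    ptY z T ν ^ 2 = ptX α z T ν ^ 3 + T ^ 2 * sA α (4 * (z ^ 2 - T)) * ptX α z T ν +
      T ^ 3 * sB α (4 * (z ^ 2 - T)) := by
  have h := cubic h3 α (4 * (z ^ 2 - T)) (-(ν ^ 2 * (z ^ 2 - T)))
  unfold ptX ptY
  linear_combination T ^ 3 * (z ^ 2 - T) ^ 2 * (4 - α * ν ^ 2 + z * ν ^ 3) * hν - T ^ 3 * h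

/-- the parameters -/
theorem nu_one {ρ : F} (h : ρ ≠ 0) :
    (ρ * (ρ ^ 2 - 1)) * (1 / ρ) ^ 3 + (3 * ρ ^ 2 + 1) * (1 / ρ) ^ 2 - 4 = 0 := by
  field_simp
  ring

theorem nu_two {ρ : F} (h : 1 - ρ ≠ 0) :
    (ρ * (ρ ^ 2 - 1)) * (2 / (1 - ρ)) ^ 3 + (3 * ρ ^ 2 + 1) * (2 / (1 - ρ)) ^ 2 - 4 = 0 := by
  field_simp
  ring

end alg

section two

variable {k F : Type} [Field k] [Field F] [Algebra k F] {v : Place k F}

open Classical in
/-- the two points are independent if there is no two-torsion -/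
theorem two_points {T ρ : F} (hT : v.ord T = 1) (hρ : v.Reg ρ) (h2 : v.red (2 : F) ≠ 0)
    (h3i : v.Reg ((3 : F)⁻¹)) (h3 : (3 : F) ≠ 0) (g0 : v.red ρ ≠ 0) (g1 : v.red ρ ^ 2 ≠ 1)
    (g9 : 9 * v.red ρ ^ 2 ≠ 1) (gi1 : v.Reg (ρ⁻¹)) (gi2 : v.Reg ((1 - ρ)⁻¹))
    (gi3 : v.Reg ((1 / ρ + 2 / (1 - ρ))⁻¹)) (n1 : 1 / ρ ≠ 2 / (1 - ρ)) (n2 : 1 / ρ + 2 / (1 - ρ) ≠ 0)
    (hno : ∀ R : (curve (T ^ 2 * sA (3 * ρ ^ 2 + 1) (4 * ((ρ * (ρ ^ 2 - 1)) ^ 2 - T)))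
      (T ^ 3 * sB (3 * ρ ^ 2 + 1) (4 * ((ρ * (ρ ^ 2 - 1)) ^ 2 - T)))).toAffine.Point,
      R + R = 0 → R = 0) :
    ∃ P : Fin 2 → (curve (T ^ 2 * sA (3 * ρ ^ 2 + 1) (4 * ((ρ * (ρ ^ 2 - 1)) ^ 2 - T)))
      (T ^ 3 * sB (3 * ρ ^ 2 + 1) (4 * ((ρ * (ρ ^ 2 - 1)) ^ 2 - T)))).toAffine.Point,
      LinearIndependent ℤ P := by
  have hT0 : T ≠ 0 := by
    rintro rfl
    rw [v.ord_zero] at hT
    norm_num at hT
  obtain ⟨t0, t1⟩ := unit_of_red reg_two h2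
  have hTr : v.Reg T := Or.inr (by rw [hT]; norm_num)
  have hTs : Small v T := Or.inr (by rw [hT]; norm_num)
  have hTred : v.red T = 0 := (v.red_eq_zero_iff hTr).2 hTs
  have r3 : v.Reg (3 : F) := by exact_mod_cast reg_nat' (v := v) 3
  have r4 : v.Reg (4 : F) := by exact_mod_cast reg_nat' (v := v) 4
  have r27 : v.Reg (27 : F) := by exact_mod_cast reg_nat' (v := v) 27
  have e3 : v.red (3 : F) = 3 := by exact_mod_cast red_nat' (v := v) 3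
  have e4 : v.red (4 : F) = 4 := by exact_mod_cast red_nat' (v := v) 4
  have e27 : v.red (27 : F) = 27 := by exact_mod_cast red_nat' (v := v) 27
  have e2 : v.red (2 : F) = 2 := by exact_mod_cast red_nat' (v := v) 2
  set z := ρ * (ρ ^ 2 - 1) with hz
  set α := 3 * ρ ^ 2 + 1 with hα
  set w := z ^ 2 - T with hw
  have rp2 : v.Reg (ρ ^ 2) := reg_pow' hρ 2
  have rm1 : v.Reg (-1 : F) := v.reg_neg v.reg_one
  have rz : v.Reg z := v.reg_mul hρ (by rw [sub_eq_add_neg]; exact v.reg_add rp2 rm1)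
  have rα : v.Reg α := v.reg_add (v.reg_mul r3 rp2) v.reg_one
  have rw' : v.Reg w := by
    rw [hw, sub_eq_add_neg]; exact v.reg_add (reg_pow' rz 2) (v.reg_neg hTr)
  have rβ : v.Reg (4 * w) := v.reg_mul r4 rw'
  have ez : v.red z = v.red ρ * (v.red ρ ^ 2 - 1) := by
    rw [hz, v.red_mul hρ (by rw [sub_eq_add_neg]; exact v.reg_add rp2 rm1),
      v.red_sub rp2 v.reg_one, v.red_pow hρ, v.red_one]
  have eα : v.red α = 3 * v.red ρ ^ 2 + 1 := by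
    rw [hα, v.red_add (v.reg_mul r3 rp2) v.reg_one, v.red_mul r3 rp2, v.red_pow hρ, v.red_one, e3]
  have ew : v.red w = (v.red ρ * (v.red ρ ^ 2 - 1)) ^ 2 := by
    rw [hw, v.red_sub (reg_pow' rz 2) hTr, hTred, sub_zero, v.red_pow rz, ez]
  have r3i := h3i
  have rdiv3 : ∀ x : F, v.Reg x → v.Reg (x / 3) := fun x hx => by
    rw [div_eq_mul_inv]; exact v.reg_mul hx h3i
  have rdiv27 : ∀ x : F, v.Reg x → v.Reg (x / 27) := fun x hx => by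
    have : x / 27 = x * ((3 : F)⁻¹) ^ 3 := by
      rw [div_eq_mul_inv, inv_pow]; norm_num
    rw [this]; exact v.reg_mul hx (reg_pow' h3i 3)
  have ra : v.Reg (sA α (4 * w)) := by
    unfold sA
    rw [sub_eq_add_neg]
    exact v.reg_add (v.reg_mul (v.reg_mul reg_two rα) rβ) (v.reg_neg (rdiv3 _ (reg_pow' rα 4)))
  have rb : v.Reg (sB α (4 * w)) := by
    unfold sB
    rw [sub_eq_add_neg]
    exact v.reg_add (v.reg_add (reg_pow' rβ 2) (v.reg_neg (rdiv3 _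
      (v.reg_mul (v.reg_mul reg_two (reg_pow' rα 3)) rβ))))
      (rdiv27 _ (v.reg_mul reg_two (reg_pow' rα 6)))
  -- the discriminant
  have hγ : v.Reg (4 * α ^ 3 - 27 * (4 * w)) := by
    rw [sub_eq_add_neg]
    exact v.reg_add (v.reg_mul r4 (reg_pow' rα 3)) (v.reg_neg (v.reg_mul r27 rβ))
  have h2' : (2 : v.RF) ≠ 0 := by rw [← e2]; exact h2
  have h4' : (4 : v.RF) ≠ 0 := by
    have : (4 : v.RF) = 2 * 2 := by norm_num
    rw [this]; exact mul_ne_zero h2' h2'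
  have eγ : v.red (4 * α ^ 3 - 27 * (4 * w)) = 4 * (9 * v.red ρ ^ 2 - 1) ^ 2 := by
    rw [v.red_sub (v.reg_mul r4 (reg_pow' rα 3)) (v.reg_mul r27 rβ), v.red_mul r4 (reg_pow' rα 3),
      v.red_mul r27 rβ, v.red_mul r4 rw', v.red_pow rα, ew, eα, e4, e27]
    ring
  have eβ : v.red (4 * w) = 4 * (v.red ρ * (v.red ρ ^ 2 - 1)) ^ 2 := by
    rw [v.red_mul r4 rw', ew, e4]
  have hΔr : v.red (4 * sA α (4 * w) ^ 3 + 27 * sB α (4 * w) ^ 2) ≠ 0 := by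
    rw [disc_s h3, v.red_neg (v.reg_mul (reg_pow' rβ 3) hγ), v.red_mul (reg_pow' rβ 3) hγ,
      v.red_pow rβ, eβ, eγ]
    have m1 : v.red ρ ^ 2 - 1 ≠ 0 := sub_ne_zero.2 g1
    have m9 : 9 * v.red ρ ^ 2 - 1 ≠ 0 := sub_ne_zero.2 g9
    exact neg_ne_zero.2 (mul_ne_zero (pow_ne_zero 3 (mul_ne_zero h4' (pow_ne_zero 2
      (mul_ne_zero g0 m1)))) (mul_ne_zero h4' (pow_ne_zero 2 m9)))
  have hΔr' : v.Reg (4 * sA α (4 * w) ^ 3 + 27 * sB α (4 * w) ^ 2) :=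
    v.reg_add (v.reg_mul r4 (reg_pow' ra 3)) (v.reg_mul r27 (reg_pow' rb 2))
  have hΔ : 4 * (T ^ 2 * sA α (4 * w)) ^ 3 + 27 * (T ^ 3 * sB α (4 * w)) ^ 2 ≠ 0 := by
    rw [tw_disc]
    exact mul_ne_zero (pow_ne_zero 6 hT0) (unit_of_red hΔr' hΔr).1
  -- the points
  have q0 : ρ ≠ 0 := by
    rintro rfl
    exact g0 v.red_zero
  have q1 : 1 - ρ ≠ 0 := by
    intro h
    apply g1
    have : ρ = 1 := by linear_combination -h
    rw [this, v.red_one, one_pow]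
  have o1 := on_curve (T := T) h3 (nu_one q0)
  have o2 := on_curve (T := T) h3 (nu_two q1)
  set ν1 := 1 / ρ with hν1
  set ν2 := 2 / (1 - ρ) with hν2
  have rν1 : v.Reg ν1 := by rw [hν1, one_div]; exact gi1
  have rν2 : v.Reg ν2 := by rw [hν2, div_eq_mul_inv]; exact v.reg_mul reg_two gi2
  have s1 := nonsing t0 hΔ o1
  have s2 := nonsing t0 hΔ o2
  have small : ∀ ν : F, v.Reg ν → Small v (ptX α z T ν) := fun ν hν => by
    unfold ptX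
    exact small_mul hTs (v.reg_add (v.reg_neg (v.reg_mul (reg_pow' hν 2) rw'))
      (rdiv3 _ (reg_pow' rα 2)))
  have hw0 : w ≠ 0 := by
    have m1 : v.red ρ ^ 2 - 1 ≠ 0 := sub_ne_zero.2 g1
    apply (unit_of_red rw' ?_).1
    rw [ew]
    exact pow_ne_zero 2 (mul_ne_zero g0 m1)
  have hX : ptX α z T ν1 ≠ ptX α z T ν2 := by
    intro h
    unfold ptX at h
    have h5 := mul_left_cancel₀ hT0 h
    have h6 : (ν1 - ν2) * (ν1 + ν2) * w = 0 := by linear_combination -h5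
    rcases mul_eq_zero.1 h6 with h7 | h7
    · rcases mul_eq_zero.1 h7 with h8 | h8
      · exact n1 (sub_eq_zero.1 h8)
      · exact n2 h8
    · exact hw0 h7
  have hsl : (curve (T ^ 2 * sA α (4 * w)) (T ^ 3 * sB α (4 * w))).toAffine.slope
      (ptX α z T ν1) (ptX α z T ν2) (ptY z T ν1) (ptY z T ν2) =
      T * (-(ν1 ^ 2 + ν1 * ν2 + ν2 ^ 2) * (ν1 + ν2)⁻¹) := by
    rw [slope_of_X_ne hX, div_eq_iff (sub_ne_zero.2 hX)]
    unfold ptX ptY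
    have h5 : (ν1 + ν2)⁻¹ * (ν1 + ν2) = 1 := inv_mul_cancel₀ n2
    linear_combination T ^ 2 * w * (ν1 - ν2) * (-(ν1 ^ 2 + ν1 * ν2 + ν2 ^ 2)) * h5
  have hsum : Small v ((curve (T ^ 2 * sA α (4 * w)) (T ^ 3 * sB α (4 * w))).toAffine.addX
      (ptX α z T ν1) (ptX α z T ν2)
      ((curve (T ^ 2 * sA α (4 * w)) (T ^ 3 * sB α (4 * w))).toAffine.slope
      (ptX α z T ν1) (ptX α z T ν2) (ptY z T ν1) (ptY z T ν2))) := by
    rw [hsl]
    have rr : v.Reg (-(ν1 ^ 2 + ν1 * ν2 + ν2 ^ 2) * (ν1 + ν2)⁻¹) :=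
      v.reg_mul (v.reg_neg (v.reg_add (v.reg_add (reg_pow' rν1 2) (v.reg_mul rν1 rν2))
        (reg_pow' rν2 2))) gi3
    set σ := -(ν1 ^ 2 + ν1 * ν2 + ν2 ^ 2) * (ν1 + ν2)⁻¹ with hσ
    have e : (curve (T ^ 2 * sA α (4 * w)) (T ^ 3 * sB α (4 * w))).toAffine.addX
      (ptX α z T ν1) (ptX α z T ν2) (T * σ) = T * (T * σ ^ 2 +
        (-(-(ν1 ^ 2 * w) + α ^ 2 / 3) + -(-(ν2 ^ 2 * w) + α ^ 2 / 3))) := by
      simp only [addX, curve, ptX]
      ring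
    rw [e]
    have rx : ∀ ν : F, v.Reg ν → v.Reg (-(-(ν ^ 2 * w) + α ^ 2 / 3)) := fun ν hν =>
      v.reg_neg (v.reg_add (v.reg_neg (v.reg_mul (reg_pow' hν 2) rw')) (rdiv3 _ (reg_pow' rα 2)))
    exact small_mul hTs (v.reg_add (v.reg_mul hTr (reg_pow' rr 2)) (v.reg_add (rx _ rν1) (rx _ rν2)))
  refine ⟨![Point.some _ _ s1, Point.some _ _ s2], indep_two _ hno ?_ ?_ ?_⟩
  · intro R
    exact dbl_point hT ra rb h2 hΔr R s1 (small _ rν1)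
  · intro R
    exact dbl_point hT ra rb h2 hΔr R s2 (small _ rν2)
  · intro R
    have h5 : (![Point.some _ _ s1, Point.some _ _ s2] : Fin 2 → _) 0 +
      (![Point.some _ _ s1, Point.some _ _ s2] : Fin 2 → _) 1 =
        Point.some _ _ s1 + Point.some _ _ s2 := rfl
    rw [h5, Point.add_of_X_ne hX]
    exact dbl_point hT ra rb h2 hΔr R _ hsum

end two

end Pool.Agent.TH180.R2
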