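import Pool.Agent.TH180.R2.Pts
import Pool.Agent.W309.RF.ZetaR

/-!
Rank at least two over `k(T)`, and over all function fields.
-/

set_option autoImplicit false
set_option linter.all false
set_option maxHeartbeats 1000000

open WeierstrassCurve WeierstrassCurve.Affine FF Polynomial
open scoped nonZeroDivisors

namespace Pool.Agent.TH180.R2

open Pool.Agent.W343.BSD Pool.Agent.H525R3.FFp Pool.Agent.W309.RF
open Pool.Agent.W313.Gr (curve rank rank_mono)
open Pool.Agent.TH639.B3 (curve_eq)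

section place

variable {k : Type} [Field k] [Finite k]

/-- the place `T = 0` -/
theorem exists_zero : ∃ v : Place k (RatFunc k), v.ord (RatFunc.X : RatFunc k) = 1 := by
  classical
  have h0 : ∃ v : Place k (RatFunc k), 0 < v.ord (RatFunc.X : RatFunc k) := by
    by_contra hcon
    push Not at hcon
    have h1 : ddeg (divisor k ((RatFunc.X : RatFunc k)⁻¹)) = 0 := ddeg_divisor _
    have hle : Finsupp.single (infty k) (1 : ℤ) ≤ divisor k ((RatFunc.X : RatFunc k)⁻¹) := by
      intro w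
      rw [divisor_apply, Finsupp.single_apply, w.ord_inv]
      split_ifs with h
      · subst h
        have := infty_X (k := k)
        omega
      · have := hcon w
        omega
    have h2 := ddeg_mono hle
    rw [ddeg_single, h1, one_mul] at h2
    have := deg_pos (k := k) (infty k)
    omega
  obtain ⟨v, hv⟩ := h0
  obtain ⟨π, hm, hirr, hord, -, hdvd, -⟩ := fin_exists hv.le
  refine ⟨v, ?_⟩
  have h1 : π ∣ X := by
    rw [← hdvd X X_ne_zero, A_X]
    exact hv
  have h2 : π = X := by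
    have h3 := (hirr.associated_of_dvd irreducible_X h1)
    exact eq_of_monic_of_associated hm monic_X h3
  rw [h2, A_X] at hord
  exact hord

end place

section tor

variable {k : Type} [Field k]

/-- the cubic has no root -/
theorem no_root (h2 : (2 : k) ≠ 0) (a z : k) (x : RatFunc k)
    (hx : x ^ 3 + (algebraMap k (RatFunc k) a * x +
      4 * (algebraMap k (RatFunc k) z ^ 2 - RatFunc.X)) ^ 2 = 0) : False := by
  have hA : ∀ c : k, algebraMap k (RatFunc k) c = algebraMap k[X] (RatFunc k) (C c) := fun _ => rfl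
  have hXX : (RatFunc.X : RatFunc k) = algebraMap k[X] (RatFunc k) X := RatFunc.algebraMap_X.symm
  have hint : IsIntegral k[X] x := by
    obtain ⟨w, hw⟩ : ∃ w : k[X], w = 4 * (C z ^ 2 - X) := ⟨_, rfl⟩
    have hw' : algebraMap k[X] (RatFunc k) w = 4 * (algebraMap k (RatFunc k) z ^ 2 - RatFunc.X) := by
      rw [hw, map_mul, map_ofNat, map_sub, map_pow, hA, hXX]
    refine ⟨X ^ 3 + (C (C a) * X + C w) ^ 2, ?_, ?_⟩
    · monicity!
    · simp only [eval₂_add, eval₂_mul, eval₂_pow, eval₂_X, eval₂_C]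
      rw [hw', ← hA]
      exact hx
  obtain ⟨p, hp⟩ := IsIntegrallyClosed.algebraMap_eq_of_integral hint
  have hinj : Function.Injective (algebraMap k[X] (RatFunc k)) := RatFunc.algebraMap_injective k
  have hpol : p ^ 3 + (C a * p + C 4 * (C (z ^ 2) - X)) ^ 2 = 0 := by
    apply hinj
    rw [map_zero, ← hx, ← hp, hA, hA, hXX]
    have e4 : (C 4 : k[X]) = 4 := rfl
    rw [e4]
    simp only [map_add, map_mul, map_pow, map_ofNat, map_sub]
  have h4 : (4 : k) ≠ 0 := by
    have : (4 : k) = 2 * 2 := by norm_num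
    rw [this]
    exact mul_ne_zero h2 h2
  set s : k[X] := C a * p + C 4 * (C (z ^ 2) - X) with hs
  have d0 : (C 4 * (C (z ^ 2) - X) : k[X]).natDegree = 1 := by
    rw [natDegree_C_mul h4, natDegree_sub, natDegree_X_sub_C]
  have d1 : s.natDegree ≤ max p.natDegree 1 := by
    rw [hs]
    refine (natDegree_add_le _ _).trans (max_le_max (natDegree_C_mul_le _ _) d0.le)
  have e : p ^ 3 = -(s ^ 2) := by linear_combination hpol
  have h5 := congrArg natDegree e
  rw [natDegree_neg, natDegree_pow, natDegree_pow] at h5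
  have hp0 : p.natDegree = 0 := by
    rcases max_cases p.natDegree 1 with ⟨h6, h7⟩ | ⟨h6, h7⟩ <;> omega
  have hpc : p = C (p.coeff 0) := eq_C_of_natDegree_eq_zero hp0
  have d2 : s.natDegree = 1 := by
    have e5 : s = C (a * p.coeff 0) + C 4 * (C (z ^ 2) - X) := by
      rw [hs, C_mul, ← hpc]
    rw [e5, natDegree_C_add, d0]
  omega

open Classical in
/-- no two-torsion if the cubic has no root -/
theorem no_two {F : Type} [Field F] (h2 : (2 : F) ≠ 0) (h3 : (3 : F) ≠ 0) {T α β : F} (hT : T ≠ 0)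
    (hroot : ∀ x : F, x ^ 3 + (α * x + β) ^ 2 ≠ 0)
    (R : (curve (T ^ 2 * sA α β) (T ^ 3 * sB α β)).toAffine.Point) (hR : R + R = 0) : R = 0 := by
  rcases R with _ | ⟨x, y, hxy⟩
  · rfl
  · exfalso
    by_cases hY : y = (curve (T ^ 2 * sA α β) (T ^ 3 * sB α β)).toAffine.negY x y
    · have hneg : (curve (T ^ 2 * sA α β) (T ^ 3 * sB α β)).toAffine.negY x y = -y := by
        simp [negY, curve]
      rw [hneg] at hY
      have hy : y = 0 := by
        have : 2 * y = 0 := by linear_combination hY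
        exact (mul_eq_zero.1 this).resolve_left h2
      have hE := (curve_eq _ _ _ _).1 hxy.1
      rw [hy] at hE
      apply hroot (x / T - α ^ 2 / 3)
      rw [← cubic h3 α β (x / T - α ^ 2 / 3)]
      have e : x / T - α ^ 2 / 3 + α ^ 2 / 3 = x / T := by ring
      rw [e]
      have hx : x = T * (x / T) := by field_simp
      apply mul_left_cancel₀ (pow_ne_zero 3 hT)
      rw [mul_zero]
      calc T ^ 3 * ((x / T) ^ 3 + sA α β * (x / T) + sB α β) =
          (T * (x / T)) ^ 3 + T ^ 2 * sA α β * (T * (x / T)) + T ^ 3 * sB α β := by ring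
        _ = 0 := by
          rw [← hx]
          linear_combination -hE
    · rw [Point.add_self_of_Y_ne hY] at hR
      exact absurd hR (by simp)

end tor

section main

variable {k : Type} [Field k] [Finite k]

theorem const_reg {F : Type} [Field F] [Algebra k F] (v : Place k F) {c : k} {x : F}
    (h : x = algebraMap k F c) : v.Reg x := by
  rw [h]; exact v.reg_const c

/-- the rank over `k(T)` is at least two -/
theorem rank_rat (h6 : (6 : k) ≠ 0) {ρ : k} (h0 : ρ ≠ 0) (h1 : ρ ^ 2 ≠ 1) (h9 : 9 * ρ ^ 2 ≠ 1) :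
    2 ≤ rank (K := RatFunc k)
      (RatFunc.X ^ 2 * sA (3 * algebraMap k (RatFunc k) ρ ^ 2 + 1)
        (4 * ((algebraMap k (RatFunc k) ρ * (algebraMap k (RatFunc k) ρ ^ 2 - 1)) ^ 2 - RatFunc.X)))
      (RatFunc.X ^ 3 * sB (3 * algebraMap k (RatFunc k) ρ ^ 2 + 1)
        (4 * ((algebraMap k (RatFunc k) ρ * (algebraMap k (RatFunc k) ρ ^ 2 - 1)) ^ 2 -
          RatFunc.X))) := by
  classical
  have k2 : (2 : k) ≠ 0 := by
    intro h; apply h6
    have : (6 : k) = 2 * 3 := by norm_num
    rw [this, h, zero_mul]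
  have k3 : (3 : k) ≠ 0 := by
    intro h; apply h6
    have : (6 : k) = 2 * 3 := by norm_num
    rw [this, h, mul_zero]
  obtain ⟨v, hv⟩ := exists_zero (k := k)
  set φ := algebraMap k (RatFunc k) with hφ
  have hinj : Function.Injective φ := φ.injective
  have f2 : (2 : RatFunc k) = φ 2 := by rw [map_ofNat]
  have f3 : (3 : RatFunc k) = φ 3 := by rw [map_ofNat]
  have F2 : (2 : RatFunc k) ≠ 0 := by rw [f2]; exact (_root_.map_ne_zero _).2 k2
  have F3 : (3 : RatFunc k) ≠ 0 := by rw [f3]; exact (_root_.map_ne_zero _).2 k3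
  have hred : ∀ c : k, v.red (φ c) = algebraMap k v.RF c := fun c => (v.algebraMap_RF c).symm
  have hk : ∀ c d : k, c ≠ d → algebraMap k v.RF c ≠ algebraMap k v.RF d := fun c d h h' =>
    h ((algebraMap k v.RF).injective h')
  have q1 : 1 - ρ ≠ 0 := by
    intro h
    apply h1
    have : ρ = 1 := by linear_combination -h
    rw [this, one_pow]
  have q2 : 1 + ρ ≠ 0 := by
    intro h
    apply h1
    have : ρ = -1 := by linear_combination h
    rw [this]; ring
  have q3 : 1 - 3 * ρ ≠ 0 := by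
    intro h
    apply h9
    linear_combination (-1 - 3 * ρ) * h
  have e2 : (1 - φ ρ) = φ (1 - ρ) := by rw [map_sub, map_one]
  have e5 : 1 / φ ρ + 2 / (1 - φ ρ) = φ ((1 + ρ) / (ρ * (1 - ρ))) := by
    rw [map_div₀, map_mul, map_add, map_sub, map_one]
    have a1 : φ ρ ≠ 0 := (_root_.map_ne_zero _).2 h0
    have a2 : 1 - φ ρ ≠ 0 := by rw [e2]; exact (_root_.map_ne_zero _).2 q1
    field_simp
    ring
  have e6 : 1 / φ ρ - 2 / (1 - φ ρ) = φ ((1 - 3 * ρ) / (ρ * (1 - ρ))) := by
    rw [map_div₀, map_mul, map_sub, map_sub, map_mul, map_one, map_ofNat]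
    have a1 : φ ρ ≠ 0 := (_root_.map_ne_zero _).2 h0
    have a2 : 1 - φ ρ ≠ 0 := by rw [e2]; exact (_root_.map_ne_zero _).2 q1
    field_simp
    ring
  have c5 : (1 + ρ) / (ρ * (1 - ρ)) ≠ 0 := div_ne_zero q2 (mul_ne_zero h0 q1)
  have c6 : (1 - 3 * ρ) / (ρ * (1 - ρ)) ≠ 0 := div_ne_zero q3 (mul_ne_zero h0 q1)
  obtain ⟨P, hP⟩ := two_points (v := v) (T := RatFunc.X) (ρ := φ ρ) hv (v.reg_const ρ)
    (by rw [f2, hred]; have := hk 2 0 k2; rwa [map_zero] at this)
    (const_reg v (c := 3⁻¹) (by rw [map_inv₀, map_ofNat])) F3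
    (by rw [hred]; have := hk ρ 0 h0; rwa [map_zero] at this)
    (by rw [hred, ← map_pow]; have := hk (ρ ^ 2) 1 h1; rwa [map_one] at this)
    (by
      rw [hred, ← map_pow]
      have := hk (9 * ρ ^ 2) 1 h9
      rwa [map_one, map_mul, map_ofNat] at this)
    (const_reg v (c := ρ⁻¹) (by rw [map_inv₀]))
    (const_reg v (c := (1 - ρ)⁻¹) (by rw [map_inv₀, map_sub, map_one]))
    (by
      rw [e5]
      exact const_reg v (c := ((1 + ρ) / (ρ * (1 - ρ)))⁻¹) (by rw [map_inv₀]))
    (by
      intro h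
      apply c6
      apply hinj
      rw [← e6, h, sub_self, map_zero])
    (by rw [e5]; exact (_root_.map_ne_zero _).2 c5)
    (by
      have e7 : 3 * φ ρ ^ 2 + 1 = φ (3 * ρ ^ 2 + 1) := by
        rw [map_add, map_mul, map_pow, map_one, map_ofNat]
      have e8 : φ ρ * (φ ρ ^ 2 - 1) = φ (ρ * (ρ ^ 2 - 1)) := by
        rw [map_mul, map_sub, map_pow, map_one]
      rw [e7, e8]
      intro R hR
      exact no_two F2 F3 RatFunc.X_ne_zero (fun x hx => no_root k2 _ _ x hx) R hR)
  have h8 := hP.cardinal_le_rank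
  rw [Cardinal.mk_fin] at h8
  exact_mod_cast h8

/-- the rank of the pull-back is at least two -/
theorem rank_ge (h6 : (6 : k) ≠ 0) {ρ : k} (h0 : ρ ≠ 0) (h1 : ρ ^ 2 ≠ 1) (h9 : 9 * ρ ^ 2 ≠ 1)
    {K : Type} [Field K] [Algebra k K] {f : K} (hf : Transcendental k f) :
    2 ≤ rank (f ^ 2 * sA (3 * algebraMap k K ρ ^ 2 + 1)
        (4 * ((algebraMap k K ρ * (algebraMap k K ρ ^ 2 - 1)) ^ 2 - f)))
      (f ^ 3 * sB (3 * algebraMap k K ρ ^ 2 + 1)
        (4 * ((algebraMap k K ρ * (algebraMap k K ρ ^ 2 - 1)) ^ 2 - f))) := by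
  have hinj : Function.Injective (aeval f : k[X] →ₐ[k] K) := by
    rw [injective_iff_map_eq_zero]
    intro p hp
    by_contra hne
    exact hf ⟨p, hne, hp⟩
  have hdom : k[X]⁰ ≤ K⁰.comap (aeval f : k[X] →ₐ[k] K) := by
    intro p hp
    rw [Submonoid.mem_comap]
    rw [mem_nonZeroDivisors_iff_ne_zero] at hp ⊢
    intro h
    exact hp (hinj (by rw [h, map_zero]))
  set Φ : RatFunc k →ₐ[k] K := RatFunc.liftAlgHom (aeval f) hdom with hΦ
  have hX : Φ RatFunc.X = f := by
    rw [hΦ, ← RatFunc.algebraMap_X]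
    have := RatFunc.liftAlgHom_apply_div (S := k) (φ := (aeval f : k[X] →ₐ[k] K)) hdom X 1
    rw [map_one, map_one, div_one, div_one, aeval_X] at this
    exact this
  letI : Algebra (RatFunc k) K := Φ.toRingHom.toAlgebra
  have hΦa : ∀ x : RatFunc k, algebraMap (RatFunc k) K x = Φ x := fun _ => rfl
  have h := (rank_rat h6 h0 h1 h9).trans (rank_mono (K' := K) _ _)
  have e1 : ∀ α β : RatFunc k, algebraMap (RatFunc k) K (sA α β) = sA (Φ α) (Φ β) := by
    intro α β
    rw [hΦa]
    unfold sA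
    rw [map_sub, map_mul, map_mul, map_div₀, map_pow, map_ofNat, map_ofNat]
  have e2 : ∀ α β : RatFunc k, algebraMap (RatFunc k) K (sB α β) = sB (Φ α) (Φ β) := by
    intro α β
    rw [hΦa]
    unfold sB
    rw [map_add, map_sub, map_div₀, map_div₀, map_mul, map_mul, map_mul, map_pow, map_pow,
      map_pow, map_ofNat, map_ofNat, map_ofNat]
  have ec : ∀ c : k, Φ (algebraMap k (RatFunc k) c) = algebraMap k K c := fun c => Φ.commutes c
  rw [map_mul, map_mul, map_pow, map_pow, e1, e2, hΦa, hX, map_add, map_mul, map_pow, ec, map_one,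
    map_ofNat, map_mul, map_ofNat, map_sub, map_pow, map_mul, map_sub, map_pow, ec, map_one,
    hX] at h
  exact h

end main

end Pool.Agent.TH180.R2
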